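import Pool.Agent.helper60.DB.SpecC

/-!
Row bc:F0 (MP_fb2c2a_nt): first step of the lemma of Fatou.
-/

namespace Pool.Agent.helper60.DB

open Polynomial Finset

theorem F0 (hPV : PV_stmt) : F0_stmt := by
  intro R k _ _ _ _ p _ q hL D w j c hD hc
  have hp0 : (p : R) ≠ 0 := by
    have := (Fact.out : p.Prime).ne_zero
    exact_mod_cast this
  have hqp : q (p : R) = 0 := (hL.ker _).2 (dvd_refl _)
  have hDk : PowerSeries.map q (D : PowerSeries R) ≠ 0 := by
    intro h
    apply hD
    ext i
    have h1 := congrArg (PowerSeries.coeff i) h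
    rw [PowerSeries.coeff_map, Polynomial.coeff_coe, map_zero] at h1
    rw [Polynomial.coeff_map, Polynomial.coeff_zero]
    exact h1
  induction j generalizing w with
  | zero =>
    intro h h0
    have h1 := congrArg (PowerSeries.constantCoeff) h
    rw [map_mul, PowerSeries.constantCoeff_C, pow_zero, one_mul] at h1
    have h2 : PowerSeries.constantCoeff (D : PowerSeries R) = D.coeff 0 := by
      rw [← PowerSeries.coeff_zero_eq_constantCoeff_apply, Polynomial.coeff_coe]
    rw [h2] at h1
    apply hc
    rw [← h1, map_mul, h0, zero_mul]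
  | succ j ih =>
    intro h
    have h1 := congrArg (PowerSeries.map q) h
    rw [map_mul, PowerSeries.map_C, map_mul, map_pow, hqp, zero_pow (Nat.succ_ne_zero j), zero_mul,
      map_zero] at h1
    have h2 : PowerSeries.map q w = 0 := (mul_eq_zero.1 h1).resolve_left hDk
    obtain ⟨w', hw'⟩ := ((hPV R k p q hL).1 w).1 h2
    apply ih w'
    have hC : (PowerSeries.C (p : R)) ≠ 0 := by
      intro h3
      apply hp0
      have h4 := congrArg (PowerSeries.constantCoeff) h3
      rwa [PowerSeries.constantCoeff_C, map_zero] at h4
    apply mul_left_cancel₀ hC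
    rw [hw'] at h
    calc PowerSeries.C (p : R) * ((D : PowerSeries R) * w')
        = (D : PowerSeries R) * (PowerSeries.C (p : R) * w') := by ring
      _ = PowerSeries.C ((p : R) ^ (j + 1) * c) := h
      _ = PowerSeries.C (p : R) * PowerSeries.C ((p : R) ^ j * c) := by
        rw [← map_mul]
        congr 1
        ring

end Pool.Agent.helper60.DB
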