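import Pool.Agent.helper60.DB.SpecF

/-!
Row bf:L2 (MP_fb2c2a_nt): Legendre symbols for the two forms of discriminant -24.
-/

namespace Pool.Agent.helper60.DB

open Polynomial Finset

theorem L2_leg {p : ℕ} [Fact p.Prime] {a b : ℤ} (ha : ¬ (p : ℤ) ∣ a) (hb : ¬ (p : ℤ) ∣ b)
    (h : (p : ℤ) ∣ a ^ 2 + 6 * b ^ 2) : legendreSym p (-6) = 1 := by
  have ha' : ((a : ℤ) : ZMod p) ≠ 0 := by
    rwa [Ne, ZMod.intCast_zmod_eq_zero_iff_dvd]
  have hb' : ((b : ℤ) : ZMod p) ≠ 0 := by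
    rwa [Ne, ZMod.intCast_zmod_eq_zero_iff_dvd]
  have h1 : legendreSym p (-6 * b ^ 2) = legendreSym p (a ^ 2) := by
    rw [legendreSym.mod p (-6 * b ^ 2), legendreSym.mod p (a ^ 2)]
    congr 1
    apply Int.emod_emod_of_dvd _ (dvd_refl _) |>.symm.trans
    rw [Int.emod_emod_of_dvd _ (dvd_refl _)]
    apply Int.emod_eq_emod_iff_emod_sub_eq_zero.2
    apply Int.emod_eq_zero_of_dvd
    have h2 := (dvd_neg (α := ℤ)).2 h
    have h3 : -6 * b ^ 2 - a ^ 2 = -(a ^ 2 + 6 * b ^ 2) := by ring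
    rw [h3]
    exact h2
  rw [legendreSym.mul, legendreSym.sq_one' p ha', legendreSym.sq_one' p hb', mul_one] at h1
  exact h1

theorem L2 : L2_stmt := by
  intro p _ hp a b
  have hpp : p.Prime := Fact.out
  have hp2 : p ≠ 2 := by omega
  have hodd : (p : ℤ) % 2 = 1 := by
    rcases hpp.eq_two_or_odd with h | h
    · exact absurd h hp2
    · omega
  have hpz : Prime (p : ℤ) := Nat.prime_iff_prime_int.1 hpp
  have hsq : ¬ (p : ℤ) * p ∣ p := by
    intro h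
    have h1 := Int.le_of_dvd (by have := hpp.pos; omega) h
    have h2 : (5 : ℤ) ≤ p := by exact_mod_cast hp
    nlinarith
  have h8 : ∀ x : ℤ, x ^ 2 % 8 = 0 ∨ x ^ 2 % 8 = 1 ∨ x ^ 2 % 8 = 4 := by
    intro x
    have hx : x % 8 = 0 ∨ x % 8 = 1 ∨ x % 8 = 2 ∨ x % 8 = 3 ∨ x % 8 = 4 ∨ x % 8 = 5 ∨ x % 8 = 6 ∨
      x % 8 = 7 := by omega
    rcases hx with h | h | h | h | h | h | h | h <;>
      simp [pow_two, Int.mul_emod, h]
  constructor
  · intro h
    have hb : ¬ (p : ℤ) ∣ b := by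
      intro hb
      have ha2 : (p : ℤ) ∣ a ^ 2 := by
        have h1 : (p : ℤ) ∣ a ^ 2 + 6 * b ^ 2 := by rw [← h]
        exact (dvd_add_left (Dvd.dvd.mul_left (dvd_pow hb two_ne_zero) 6)).1 h1
      have ha := hpz.dvd_of_dvd_pow ha2
      apply hsq
      nth_rewrite 3 [h]
      rw [← pow_two]
      exact dvd_add (pow_dvd_pow_of_dvd ha 2) (Dvd.dvd.mul_left (pow_dvd_pow_of_dvd hb 2) 6)
    have ha : ¬ (p : ℤ) ∣ a := by
      intro ha
      have h1 : (p : ℤ) ∣ a ^ 2 + 6 * b ^ 2 := by rw [← h]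
      have h2 : (p : ℤ) ∣ 6 * b ^ 2 := (dvd_add_right (dvd_pow ha two_ne_zero)).1 h1
      rcases hpz.dvd_mul.1 h2 with h3 | h3
      · have h4 : p ∣ 6 := by exact_mod_cast h3
        have h5 : p ∣ 2 * 3 := h4
        rcases (hpp.dvd_mul).1 h5 with h6 | h6
        · have := Nat.le_of_dvd (by norm_num) h6; omega
        · have := Nat.le_of_dvd (by norm_num) h6; omega
      · exact hb (hpz.dvd_of_dvd_pow h3)
    refine ⟨?_, L2_leg ha hb (by rw [← h])⟩
    rw [legendreSym.at_two hp2, ZMod.χ₈_nat_eq_if_mod_eight]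
    have h1 := h8 a
    have h2 := h8 b
    have h3 : p % 8 = 1 ∨ p % 8 = 7 := by omega
    rw [if_neg (by omega), if_pos h3]
  · intro h
    have hb : ¬ (p : ℤ) ∣ b := by
      intro hb
      have ha2 : (p : ℤ) ∣ 2 * a ^ 2 := by
        have h1 : (p : ℤ) ∣ 2 * a ^ 2 + 3 * b ^ 2 := by rw [← h]
        exact (dvd_add_left (Dvd.dvd.mul_left (dvd_pow hb two_ne_zero) 3)).1 h1
      have ha : (p : ℤ) ∣ a := by
        rcases hpz.dvd_mul.1 ha2 with h3 | h3
        · have h4 : p ∣ 2 := by exact_mod_cast h3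
          have := Nat.le_of_dvd (by norm_num) h4; omega
        · exact hpz.dvd_of_dvd_pow h3
      apply hsq
      nth_rewrite 3 [h]
      rw [← pow_two]
      exact dvd_add (Dvd.dvd.mul_left (pow_dvd_pow_of_dvd ha 2) 2)
        (Dvd.dvd.mul_left (pow_dvd_pow_of_dvd hb 2) 3)
    have ha : ¬ (p : ℤ) ∣ a := by
      intro ha
      have h1 : (p : ℤ) ∣ 2 * a ^ 2 + 3 * b ^ 2 := by rw [← h]
      have h2 : (p : ℤ) ∣ 3 * b ^ 2 :=
        (dvd_add_right (Dvd.dvd.mul_left (dvd_pow ha two_ne_zero) 2)).1 h1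
      rcases hpz.dvd_mul.1 h2 with h3 | h3
      · have h4 : p ∣ 3 := by exact_mod_cast h3
        have := Nat.le_of_dvd (by norm_num) h4; omega
      · exact hb (hpz.dvd_of_dvd_pow h3)
    have h2a : ¬ (p : ℤ) ∣ 2 * a := by
      intro h3
      rcases hpz.dvd_mul.1 h3 with h4 | h4
      · have h5 : p ∣ 2 := by exact_mod_cast h4
        have := Nat.le_of_dvd (by norm_num) h5; omega
      · exact ha h4
    refine ⟨?_, L2_leg h2a hb ?_⟩
    · rw [legendreSym.at_two hp2, ZMod.χ₈_nat_eq_if_mod_eight]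
      have h1 := h8 a
      have h2 := h8 b
      have h3 : p % 8 = 3 ∨ p % 8 = 5 := by omega
      rw [if_neg (by omega), if_neg (by omega)]
    · have h4 : (2 * a) ^ 2 + 6 * b ^ 2 = 2 * (p : ℤ) := by rw [h]; ring
      rw [h4]
      exact Dvd.intro_left 2 rfl

end Pool.Agent.helper60.DB
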