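import Pool.Agent.helper60.DB.SpecM

/-!
Row bm:RR (MP_fb2c2a_nt): rational power series.
-/

namespace Pool.Agent.helper60.DB

open Polynomial

theorem RR_add {K : Type} [Field K] {f g : PowerSeries K} (hf : Rt f) (hg : Rt g) :
    Rt (f + g) := by
  obtain ⟨N, D, hD, h1⟩ := hf
  obtain ⟨M, E, hE, h2⟩ := hg
  refine ⟨N * E + M * D, D * E, mul_ne_zero hD hE, ?_⟩
  simp only [Polynomial.coe_mul, Polynomial.coe_add, ← h1, ← h2]
  ring

theorem RR_mul {K : Type} [Field K] {f g : PowerSeries K} (hf : Rt f) (hg : Rt g) :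
    Rt (f * g) := by
  obtain ⟨N, D, hD, h1⟩ := hf
  obtain ⟨M, E, hE, h2⟩ := hg
  refine ⟨N * M, D * E, mul_ne_zero hD hE, ?_⟩
  simp only [Polynomial.coe_mul, ← h1, ← h2]
  ring

theorem RR_poly {K : Type} [Field K] (P : K[X]) : Rt (P : PowerSeries K) :=
  ⟨P, 1, one_ne_zero, by rw [Polynomial.coe_one, one_mul]⟩

theorem RR_const {K : Type} [Field K] (c : K) : Rt (PowerSeries.C c) := by
  have h := RR_poly (Polynomial.C c)
  rwa [Polynomial.coe_C] at h

theorem RR_X {K : Type} [Field K] : Rt (PowerSeries.X : PowerSeries K) := by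
  have h := RR_poly (Polynomial.X : K[X])
  rwa [Polynomial.coe_X] at h

theorem RR_neg {K : Type} [Field K] {f : PowerSeries K} (hf : Rt f) : Rt (-f) := by
  have h := RR_mul (RR_const (-1 : K)) hf
  rwa [map_neg, map_one, neg_one_mul] at h

theorem RR_sub {K : Type} [Field K] {f g : PowerSeries K} (hf : Rt f) (hg : Rt g) :
    Rt (f - g) := by
  rw [sub_eq_add_neg]
  exact RR_add hf (RR_neg hg)

theorem RR_div {K : Type} [Field K] {d f f' : PowerSeries K} (hd : Rt d) (hf' : Rt f')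
    (h0 : d ≠ 0) (h : d * f = f') : Rt f := by
  obtain ⟨N, D, hD, h1⟩ := hd
  obtain ⟨M, E, hE, h2⟩ := hf'
  have hN : N ≠ 0 := by
    intro hN
    rw [hN, Polynomial.coe_zero] at h1
    rcases mul_eq_zero.1 h1 with h3 | h3
    · exact hD (Polynomial.coe_eq_zero_iff.1 h3)
    · exact h0 h3
  refine ⟨D * M, N * E, mul_ne_zero hN hE, ?_⟩
  simp only [Polynomial.coe_mul, ← h1, ← h2, ← h]
  ring

theorem RR : RR_stmt := by
  intro K _
  exact ⟨RR_poly, RR_const, RR_X, fun f g hf hg => ⟨RR_add hf hg, RR_mul hf hg, RR_sub hf hg,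
    RR_neg hf⟩, fun d f f' hd hf' h0 h => RR_div hd hf' h0 h⟩

end Pool.Agent.helper60.DB
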